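import Mathlib

namespace Pool.Agent.Results.MP_0b7070_lc.ImpliesCH
open Set Cardinal

/-- `(V, κ)` is an absolutely homogeneous graph with edge-colouring, with pseudocolour `e` -/
def AbsHom {V C : Type} (κ : V → V → C) (e : C) : Prop :=
  (∀ x y, κ x y = κ y x) ∧ (∀ x y, κ x y = e ↔ x = y) ∧
    ∀ (A : Set V) (f : A → V), (∀ x y : A, κ (f x) (f y) = κ x y) →
      ∃ g : V ≃ V, (∀ x y, κ (g x) (g y) = κ x y) ∧ ∀ x : A, g x = f x

/-- the colours actually used -/
def palette {V C : Type} (κ : V → V → C) : Set C := {c | ∃ x y, x ≠ y ∧ κ x y = c}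

variable {V C : Type} {κ : V → V → C} {e : C}

theorem noclique (h : AbsHom κ e) {c : C} (hc : c ≠ e) (a : ℕ → V)
    (ha : ∀ m n, m ≠ n → κ (a m) (a n) = c) : False := by
  classical
  have inj : Function.Injective a := fun m n k => by
    by_contra hne
    exact hc ((ha m n hne).symm.trans ((h.2.1 _ _).2 k))
  obtain ⟨K, k1, k2⟩ := zorn_subset_nonempty {K : Set V | K.Pairwise fun x y => κ x y = c}
    (fun s hs hc _ => ⟨⋃₀ s, (pairwise_sUnion hc.directedOn).2 hs, fun _ => subset_sUnion_of_mem⟩)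
    (range a) (by rintro _ ⟨m, rfl⟩ _ ⟨n, rfl⟩ k; exact ha m n fun e => k (e ▸ rfl))
  let f : V → V := Function.extend a (fun n => a (n + 1)) id
  have f1 : ∀ n, f (a n) = a (n + 1) := inj.extend_apply _ _
  have f2 : ∀ x, x ∉ range a → f x = x := fun x hx => Function.extend_apply' _ _ _ hx
  have f3 : ∀ x ∈ K, f x ∈ K ∧ f x ≠ a 0 := fun x hx => by
    by_cases h : x ∈ range a
    · obtain ⟨n, rfl⟩ := h
      exact f1 n ▸ ⟨k1 ⟨_, rfl⟩, inj.ne (by omega)⟩
    · exact (f2 x h).symm ▸ ⟨hx, fun e => h ⟨0, e.symm⟩⟩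
  have f4 : Function.Injective f := fun x y e => by
    by_cases hx : x ∈ range a <;> by_cases hy : y ∈ range a
    · obtain ⟨m, rfl⟩ := hx
      obtain ⟨n, rfl⟩ := hy
      rw [f1, f1] at e
      rw [Nat.succ_injective (inj e)]
    · obtain ⟨m, rfl⟩ := hx
      exact (hy ⟨_, (f1 m).symm.trans (e.trans (f2 y hy))⟩).elim
    · obtain ⟨m, rfl⟩ := hy
      exact (hx ⟨_, (f1 m).symm.trans (e.symm.trans (f2 x hx))⟩).elim
    · rwa [f2 x hx, f2 y hy] at e
  obtain ⟨g, g1, g2⟩ := h.2.2 K (fun x => f x) fun x y => by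
    by_cases e : x.1 = y.1
    · rw [e, (h.2.1 _ _).2 rfl, (h.2.1 _ _).2 rfl]
    · rw [k2.1 x.2 y.2 e, k2.1 (f3 _ x.2).1 (f3 _ y.2).1 (f4.ne e)]
  have p : ∀ x ∈ K, κ (g.symm (a 0)) x = c := fun x hx => by
    rw [← g1, g.apply_symm_apply, g2 ⟨x, hx⟩]
    exact k2.1 (k1 ⟨0, rfl⟩) (f3 x hx).1 (f3 x hx).2.symm
  have : g.symm (a 0) ∈ K := k2.2 (y := insert (g.symm (a 0)) K)
    (k2.1.insert fun x hx _ => ⟨p x hx, (h.1 _ _).trans (p x hx)⟩) (subset_insert _ _) (.inl rfl)
  exact hc ((p _ this).symm.trans ((h.2.1 _ _).2 rfl))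

theorem big (hp : (range fun p : V × V => κ p.1 p.2).Countable) {B : Set V} (hB : ¬ B.Countable)
    (f : V → C) (hf : ∀ x, ∃ y z, κ y z = f x) : ∃ c, ¬ {x ∈ B | f x = c}.Countable := by
  by_contra h
  push Not at h
  refine hB ((hp.biUnion fun c _ => h c).mono fun x hx => ?_)
  obtain ⟨y, z, e⟩ := hf x
  exact mem_biUnion (⟨(y, z), e⟩ : f x ∈ range _) ⟨hx, rfl⟩

theorem split (h : AbsHom κ e) (hp : (range fun p : V × V => κ p.1 p.2).Countable) {B : Set V}
    (hB : ¬ B.Countable) : ∃ (a : V) (c : Bool → C), c false ≠ c true ∧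
      ∀ b, ¬ {x ∈ B | κ x a = c b}.Countable := by
  classical
  by_contra hn
  push Not at hn
  choose c hc using fun a => big hp hB (fun x => κ x a) fun x => ⟨x, a, rfl⟩
  have ne : ∀ {S : Set V}, ¬ S.Countable → S.Nonempty := fun {S} k => by
    by_contra k'
    exact k (not_nonempty_iff_eq_empty.1 k' ▸ countable_empty)
  have c1 : ∀ a, {x ∈ B | κ x a ≠ c a}.Countable := fun a => by
    by_contra h'
    obtain ⟨d, hd⟩ := big hp h' (fun x => κ x a) fun x => ⟨x, a, rfl⟩
    obtain ⟨x, hx⟩ := ne hd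
    obtain ⟨b, hb⟩ := hn a (fun b => cond b d (c a)) fun k => hx.1.2 (hx.2.trans k.symm)
    cases b
    · exact hc a hb
    · exact hd (hb.mono fun y hy => (⟨hy.1.1, hy.2⟩ : y ∈ B ∧ _))
  obtain ⟨d, hd⟩ := big hp hB c fun a => by
    obtain ⟨x, hx⟩ := ne (hc a)
    exact ⟨x, a, hx.2⟩
  have de : d ≠ e := by
    obtain ⟨a, ha⟩ := ne hd
    rintro rfl
    exact hc a ((countable_singleton a).mono fun x hx => (h.2.1 x a).1 (hx.2.trans ha.2))
  have st : ∀ s : Finset V, ∃ x, (x ∈ B ∧ c x = d) ∧ ∀ a ∈ s, κ x a = c a := fun s => by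
    by_contra k
    push Not at k
    refine hd ((s.countable_toSet.biUnion fun a _ => c1 a).mono fun x hx => ?_)
    obtain ⟨a, ha, k⟩ := k x hx
    exact mem_biUnion ha ⟨hx.1, k⟩
  choose F f1 f2 using st
  let s : ℕ → Finset V := fun n => Nat.rec ∅ (fun _ t => insert (F t) t) n
  have mono : Monotone s := monotone_nat_of_le_succ fun n => Finset.subset_insert _ _
  have key : ∀ m n, m < n → κ (F (s n)) (F (s m)) = d := fun m n k =>
    (f2 _ _ (mono k (Finset.mem_insert_self _ _))).trans (f1 _).2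
  refine noclique h de (fun n => F (s n)) fun m n k => ?_
  rcases lt_or_gt_of_ne k with k | k
  · exact (h.1 _ _).trans (key m n k)
  · exact key n m k

theorem ext (h : AbsHom κ e) {ι : Type} (u v : ι → V) (k : ∀ i j, κ (v i) (v j) = κ (u i) (u j)) :
    ∃ g : V ≃ V, (∀ x y, κ (g x) (g y) = κ x y) ∧ ∀ i, g (u i) = v i := by
  choose w hw using fun x : range u => x.2
  obtain ⟨g, g1, g2⟩ := h.2.2 (range u) (fun x => v (w x)) fun x y => by rw [k, hw, hw]
  refine ⟨g, g1, fun i => (g2 ⟨_, i, rfl⟩).trans ((h.2.1 _ _).1 ?_)⟩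
  rw [k, hw]
  exact (h.2.1 _ _).2 rfl

theorem limit (h : AbsHom κ e) (a b : ℕ → V)
    (k : ∀ n, ∀ i < n, κ (b (n + 1)) (a i) = κ (b n) (a i)) :
    ∃ z, ∀ i, κ z (a i) = κ (b (i + 1)) (a i) := by
  choose H h1 h2 using fun n => ext h (fun i => if i < n then a i else b (n + 1))
    (fun i => if i < n then a i else b n) fun i j => by
      split_ifs with p q q
      · rfl
      · rw [h.1, h.1 (a i), k n i p]
      · rw [k n j q]
      · rw [(h.2.1 _ _).2 rfl, (h.2.1 _ _).2 rfl]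
  let g : ℕ → V → V := fun n => Nat.rec id (fun m t => t ∘ H m) n
  have g1 : ∀ n x y, κ (g n x) (g n y) = κ x y := fun n => by
    induction n with
    | zero => exact fun _ _ => rfl
    | succ n ih => exact fun x y => (ih _ _).trans (h1 n x y)
  have g2 : ∀ n, g n (b n) = b 0 := fun n => by
    induction n with
    | zero => rfl
    | succ n ih =>
      have := h2 n n
      simp only [lt_irrefl, if_false] at this
      exact (congrArg (g n) this).trans ih
  have g3 : ∀ i n, i + 1 ≤ n → g n (a i) = g (i + 1) (a i) := fun i n p => by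
    induction n, p using Nat.le_induction with
    | base => rfl
    | succ n p ih =>
      have := h2 n i
      simp only [show i < n from p, if_true] at this
      exact (congrArg (g n) this).trans ih
  obtain ⟨G, G1, G2⟩ := ext h a (fun i => g (i + 1) (a i)) fun i j => by
    rw [← g3 i (i + j + 1) (by omega), ← g3 j (i + j + 1) (by omega)]
    exact g1 (i + j + 1) (a i) (a j)
  exact ⟨G.symm (b 0), fun i => by rw [← G1, G.apply_symm_apply, G2, ← g2 (i + 1)]; exact g1 (i + 1) (b _) (a i)⟩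

theorem cont (h : AbsHom κ e) (hp : (range fun p : V × V => κ p.1 p.2).Countable)
    (hV : ℵ₀ < #V) : 𝔠 ≤ #V := by
  choose a c c1 c2 using fun B : {B : Set V // ¬ B.Countable} => split h hp B.2
  let B : (ℕ → Bool) → ℕ → {B : Set V // ¬ B.Countable} := fun σ n =>
    Nat.rec ⟨univ, fun k => hV.not_ge (mk_le_aleph0_iff.2 (countable_univ_iff.1 k))⟩
      (fun m t => ⟨_, c2 t (σ m)⟩) n
  have ne : ∀ σ n, ∃ x, x ∈ (B σ n).1 := fun σ n => by
    by_contra k'
    exact (B σ n).2 ((not_nonempty_iff_eq_empty.1 k' : (B σ n).1 = ∅) ▸ countable_empty)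
  choose b hb using ne
  have anti : ∀ σ, Antitone fun n => (B σ n).1 := fun σ =>
    antitone_nat_of_succ_le fun n x hx => hx.1
  have col : ∀ σ n, ∀ i < n, κ (b σ n) (a (B σ i)) = c (B σ i) (σ i) := fun σ n i k =>
    (anti σ (show i + 1 ≤ n from k) (hb σ n)).2
  choose z hz using fun σ => limit h (fun i => a (B σ i)) (b σ) fun n i k => by
    rw [col σ _ i (by omega), col σ n i k]
  have inj : Function.Injective z := fun σ τ k => by
    have : ∀ n, B σ n = B τ n → σ n = τ n := fun n p => by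
      have := hz σ n
      rw [col σ _ n (by omega), k, p, hz τ n, col τ _ n (by omega)] at this
      have q := c1 (B τ n)
      cases hs : σ n <;> cases ht : τ n <;> rw [hs, ht] at this <;>
        first | rfl | exact (q this).elim | exact (q this.symm).elim
    have p : ∀ n, B σ n = B τ n := fun n => by
      induction n with
      | zero => rfl
      | succ n ih =>
        show (⟨_, c2 (B σ n) (σ n)⟩ : {B : Set V // ¬ B.Countable}) = ⟨_, c2 (B τ n) (τ n)⟩
        rw [this n ih, ih]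
    exact funext fun n => this n (p n)
  simpa using mk_le_of_injective inj

theorem cont' {V C : Type} (κ : V → V → C) (e : C) (h : AbsHom κ e) (h1 : #(palette κ) ≤ ℵ₀)
    (h2 : ℵ₀ < #V) : 𝔠 ≤ #V := by
  refine cont h (((le_aleph0_iff_set_countable.1 h1).insert e).mono ?_) h2
  rintro _ ⟨⟨x, y⟩, rfl⟩
  by_cases p : x = y
  · exact .inl ((h.2.1 _ _).2 p)
  · exact .inr ⟨x, y, p, rfl⟩

theorem result :
    (∀ (V C : Type) (κ : V → V → C) (e : C), AbsHom κ e → #(palette κ) ≤ ℵ₀ → ℵ₀ < #V → 𝔠 ≤ #V) ∧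
    ((∀ α β : Cardinal.{0}, ℵ₀ ≤ α → α < β → β < 2 ^ α →
      ∃ (V C : Type) (κ : V → V → C) (e : C), AbsHom κ e ∧ #(palette κ) = α ∧ #V = β) →
    (𝔠 : Cardinal.{0}) = ℵ₁) := by
  refine ⟨fun V C => cont', fun H => le_antisymm (not_lt.1 fun k => ?_) aleph_one_le_continuum⟩
  obtain ⟨V, C, κ, e, h, h1, h2⟩ := H ℵ₀ ℵ₁ le_rfl aleph0_lt_aleph_one (by simpa using k)
  exact k.not_ge (h2 ▸ cont' κ e h h1.le (h2 ▸ aleph0_lt_aleph_one))

end Pool.Agent.Results.MP_0b7070_lc.ImpliesCH
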